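import Pool.Agent.H642.CH.Basic

set_option autoImplicit false

/-! Bipartite graphs with the same graph on one side. -/

namespace Pool.Agent.H642.CH

open Set

variable {V E : Type} {R : V → E → Prop}

/-- the neighbourhood -/
def Nb (R : V → E → Prop) (e : E) : Set V := {v | R v e}

theorem nb_pair (hB : Bp V E R) (e : E) : ∃ v1 v2, Nb R e = {v1, v2} := by
  obtain ⟨v1, v2, h⟩ := hB.two e
  obtain ⟨v0, h0⟩ := hB.ne e
  have key : ∀ v, Nb R e = {v0, v} ∨ ¬ (R v e) ∨ v = v0 ∨ ∃ w, R w e ∧ w ≠ v ∧ w ≠ v0 := by
    intro v
    by_cases h1 : R v e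
    · by_cases h2 : ∃ w, R w e ∧ w ≠ v ∧ w ≠ v0
      · exact Or.inr (Or.inr (Or.inr h2))
      · push Not at h2
        left
        ext w
        constructor
        · intro hw
          by_cases h3 : w = v
          · exact Or.inr h3
          · exact Or.inl (h2 w hw h3)
        · rintro (rfl | rfl)
          · exact h0
          · exact h1
    · exact Or.inr (Or.inl h1)
  by_cases h1 : ∀ v, R v e → v = v0
  · refine ⟨v0, v0, ?_⟩
    ext w
    constructor
    · intro hw
      exact Or.inl (h1 w hw)
    · rintro (rfl | rfl) <;> exact h0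
  · push Not at h1
    obtain ⟨v, hv, hne⟩ := h1
    refine ⟨v0, v, ?_⟩
    rcases key v with h2 | h2 | h2 | ⟨w, hw, h3, h4⟩
    · exact h2
    · exact (h2 hv).elim
    · exact (hne h2).elim
    · exfalso
      rcases h v0 h0 with e0 | e0 <;> rcases h v hv with e1 | e1 <;>
        rcases h w hw with e2 | e2 <;> simp_all

/-- extension of an isomorphism of the graphs -/
theorem extend {V' E' : Type} {R' : V' → E' → Prop} [Countable E] [Countable E']
    (hB : Bp V E R) (hB' : Bp V' E' R') (π : V ≃ V')
    (h : ∀ v v', (v ≠ v' ∧ ∃ e, R v e ∧ R v' e) ↔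
      (π v ≠ π v' ∧ ∃ e, R' (π v) e ∧ R' (π v') e)) :
    ∃ ε : E ≃ E', ∀ v e, R v e ↔ R' (π v) (ε e) := by
  classical
  let K : Set V ≃ Set V' := Equiv.Set.congr π
  have hK : ∀ S, K S = π '' S := fun S => rfl
  have hF : ∀ S, Nonempty ({e // Nb R e = S} ≃ {e // Nb R' e = K S}) := by
    intro S
    by_cases hS : ∃ v1 v2, S = {v1, v2}
    · obtain ⟨v1, v2, rfl⟩ := hS
      have hK2 : K {v1, v2} = {π v1, π v2} := by
        rw [hK, image_pair]
      rw [hK2]
      by_cases h12 : v1 = v2
      · subst h12
        have e1 : ∀ {V E : Type} {R : V → E → Prop} (hB : Bp V E R) (v : V),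
            Infinite {e // Nb R e = {v, v}} := by
          intro V E R hB v
          have h1 : {e | Nb R e = {v, v}}.Infinite := by
            refine (hB.pend v).mono ?_
            rintro e ⟨h2, h3⟩
            show Nb R e = {v, v}
            ext w
            constructor
            · intro hw
              exact Or.inl (h3 w hw)
            · rintro (rfl | rfl) <;> exact h2
          exact h1.to_subtype
        have i1 := e1 hB v1
        have i2 := e1 hB' (π v1)
        exact nonempty_equiv_of_countable
      · have s1 : Subsingleton {e // Nb R e = {v1, v2}} := by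
          refine ⟨fun a b => Subtype.ext ?_⟩
          have a1 : R v1 a.1 := by
            show v1 ∈ Nb R a.1
            rw [a.2]
            exact Or.inl rfl
          have a2 : R v2 a.1 := by
            show v2 ∈ Nb R a.1
            rw [a.2]
            exact Or.inr rfl
          have b1 : R v1 b.1 := by
            show v1 ∈ Nb R b.1
            rw [b.2]
            exact Or.inl rfl
          have b2 : R v2 b.1 := by
            show v2 ∈ Nb R b.1
            rw [b.2]
            exact Or.inr rfl
          exact hB.uni v1 v2 _ _ h12 a1 a2 b1 b2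
        have h12' : π v1 ≠ π v2 := fun h => h12 (π.injective h)
        have s2 : Subsingleton {e // Nb R' e = {π v1, π v2}} := by
          refine ⟨fun a b => Subtype.ext ?_⟩
          have a1 : R' (π v1) a.1 := by
            show π v1 ∈ Nb R' a.1
            rw [a.2]
            exact Or.inl rfl
          have a2 : R' (π v2) a.1 := by
            show π v2 ∈ Nb R' a.1
            rw [a.2]
            exact Or.inr rfl
          have b1 : R' (π v1) b.1 := by
            show π v1 ∈ Nb R' b.1
            rw [b.2]
            exact Or.inl rfl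
          have b2 : R' (π v2) b.1 := by
            show π v2 ∈ Nb R' b.1
            rw [b.2]
            exact Or.inr rfl
          exact hB'.uni _ _ _ _ h12' a1 a2 b1 b2
        have n1 : Nonempty {e // Nb R e = {v1, v2}} ↔ (v1 ≠ v2 ∧ ∃ e, R v1 e ∧ R v2 e) := by
          constructor
          · rintro ⟨⟨e, he⟩⟩
            refine ⟨h12, e, ?_, ?_⟩
            · show v1 ∈ Nb R e
              rw [he]
              exact Or.inl rfl
            · show v2 ∈ Nb R e
              rw [he]
              exact Or.inr rfl
          · rintro ⟨-, e, h1, h2⟩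
            refine ⟨⟨e, ?_⟩⟩
            obtain ⟨a, b, hab⟩ := nb_pair hB e
            have h3 : v1 ∈ Nb R e := h1
            have h4 : v2 ∈ Nb R e := h2
            rw [hab] at h3 h4 ⊢
            simp only [mem_insert_iff, mem_singleton_iff] at h3 h4
            rcases h3 with rfl | rfl <;> rcases h4 with rfl | rfl
            · exact (h12 rfl).elim
            · rfl
            · exact Set.pair_comm _ _
            · exact (h12 rfl).elim
        have n2 : Nonempty {e // Nb R' e = {π v1, π v2}} ↔
            (π v1 ≠ π v2 ∧ ∃ e, R' (π v1) e ∧ R' (π v2) e) := by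
          constructor
          · rintro ⟨⟨e, he⟩⟩
            refine ⟨h12', e, ?_, ?_⟩
            · show π v1 ∈ Nb R' e
              rw [he]
              exact Or.inl rfl
            · show π v2 ∈ Nb R' e
              rw [he]
              exact Or.inr rfl
          · rintro ⟨-, e, h1, h2⟩
            refine ⟨⟨e, ?_⟩⟩
            obtain ⟨a, b, hab⟩ := nb_pair hB' e
            have h3 : π v1 ∈ Nb R' e := h1
            have h4 : π v2 ∈ Nb R' e := h2
            rw [hab] at h3 h4 ⊢
            simp only [mem_insert_iff, mem_singleton_iff] at h3 h4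
            rcases h3 with h3 | h3 <;> rcases h4 with h4 | h4
            · exact (h12' (h3.trans h4.symm)).elim
            · rw [h3, h4]
            · rw [h3, h4]
              exact Set.pair_comm _ _
            · exact (h12' (h3.trans h4.symm)).elim
        by_cases hne : Nonempty {e // Nb R e = {v1, v2}}
        · have hne' := n2.2 ((h v1 v2).1 (n1.1 hne))
          obtain ⟨a⟩ := hne
          obtain ⟨b⟩ := hne'
          exact ⟨⟨fun _ => b, fun _ => a, fun _ => Subsingleton.elim _ _,
            fun _ => Subsingleton.elim _ _⟩⟩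
        · have hne' : ¬ Nonempty {e // Nb R' e = {π v1, π v2}} := fun h1 =>
            hne (n1.2 ((h v1 v2).2 (n2.1 h1)))
          rw [not_nonempty_iff] at hne hne'
          exact ⟨Equiv.equivOfIsEmpty _ _⟩
    · have e1 : IsEmpty {e // Nb R e = S} := ⟨fun a => hS (by
        obtain ⟨v1, v2, h1⟩ := nb_pair hB a.1
        exact ⟨v1, v2, a.2.symm.trans h1⟩)⟩
      have e2 : IsEmpty {e // Nb R' e = K S} := ⟨fun a => hS (by
        obtain ⟨v1, v2, h1⟩ := nb_pair hB' a.1
        refine ⟨π.symm v1, π.symm v2, ?_⟩
        have h2 : π '' S = {v1, v2} := a.2.symm.trans h1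
        have h3 : π '' {π.symm v1, π.symm v2} = {v1, v2} := by
          rw [image_pair, π.apply_symm_apply, π.apply_symm_apply]
        exact π.injective.image_injective (h2.trans h3.symm))⟩
      exact ⟨Equiv.equivOfIsEmpty _ _⟩
  have F : ∀ S, {e // Nb R e = S} ≃ {e // Nb R' e = K S} := fun S => (hF S).some
  let ε : E ≃ E' := (Equiv.sigmaFiberEquiv (Nb R)).symm.trans
    ((Equiv.sigmaCongr K F).trans (Equiv.sigmaFiberEquiv (Nb R')))
  have hε : ∀ e, Nb R' (ε e) = K (Nb R e) := fun e => (F (Nb R e) ⟨e, rfl⟩).2
  refine ⟨ε, fun v e => ?_⟩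
  show v ∈ Nb R e ↔ π v ∈ Nb R' (ε e)
  rw [hε, hK, π.injective.mem_set_image]

end Pool.Agent.H642.CH
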