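import Pool.Agent.H642.CH.Model

set_option autoImplicit false

/-! Repelling and attracting fixed points. -/

namespace Pool.Agent.H642.CH

open Set

/-- the Cantor space -/
abbrev X : Type := ℕ → Bool

theorem exists_cl : ∃ cl : ℕ → Set X, ∀ A, IsClopen A ↔ ∃ n, cl n = A := by
  have h1 : Countable (TopologicalSpace.Clopens X) :=
    (TopologicalSpace.Clopens.countable_iff_secondCountable).2 inferInstance
  obtain ⟨g, hg⟩ := exists_surjective_nat (TopologicalSpace.Clopens X)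
  refine ⟨fun n => g n, fun A => ⟨fun hA => ?_, ?_⟩⟩
  · obtain ⟨n, hn⟩ := hg ⟨A, hA⟩
    refine ⟨n, ?_⟩
    show (g n : Set X) = A
    rw [hn]
    rfl
  · rintro ⟨n, rfl⟩
    exact (g n).isClopen

/-- an enumeration of the clopen sets -/
noncomputable def cl : ℕ → Set X := exists_cl.choose

theorem cl_clopen (n : ℕ) : IsClopen (cl n) := (exists_cl.choose_spec _).2 ⟨n, rfl⟩

theorem cl_surj {A : Set X} (h : IsClopen A) : ∃ n, cl n = A := (exists_cl.choose_spec _).1 h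

theorem cpt_mono {Y : Type} [TopologicalSpace Y] {K : Set Y} (hK : IsCompact K) {O : ℕ → Set Y}
    (ho : ∀ n, IsOpen (O n)) (hm : ∀ n m, n ≤ m → O n ⊆ O m) (hc : ∀ x ∈ K, ∃ n, x ∈ O n) :
    ∃ n, ∀ x ∈ K, x ∈ O n := by
  obtain ⟨n, hn⟩ := hK.elim_directed_cover O ho (fun x hx => mem_iUnion.2 (hc x hx))
    (directed_of_isDirected_le hm)
  exact ⟨n, hn⟩

/-- `A` is a neighbourhood of the repelling fixed point `p` -/
structure RepAt {Y : Type} [TopologicalSpace Y] (f : Y ≃ₜ Y) (A : Set Y) (p : Y) : Prop where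
  cl : IsClopen A
  bw : ∀ x ∈ A, it f (-1) x ∈ A
  pt : ∀ x, (∀ n : ℕ, it f n x ∈ A) ↔ x = p

namespace RepAt

variable {Y : Type} [TopologicalSpace Y] {f : Y ≃ₜ Y} {A A' : Set Y} {p p' : Y}

theorem bwn (h : RepAt f A p) (n : ℕ) {x : Y} (hx : x ∈ A) : it f (-n) x ∈ A := by
  induction n with
  | zero =>
    simpa [it_zero] using hx
  | succ n ih =>
    have := h.bw _ ih
    rw [← it_add] at this
    convert this using 2
    push_cast
    ring

theorem bwz (h : RepAt f A p) {a b : ℤ} (hab : a ≤ b) {x : Y} (hx : it f b x ∈ A) :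
    it f a x ∈ A := by
  obtain ⟨n, hn⟩ := Int.le.dest hab
  have := h.bwn n hx
  rw [← it_add] at this
  convert this using 2
  omega

theorem mem (h : RepAt f A p) : p ∈ A := by
  have := (h.pt p).2 rfl 0
  simpa [it_zero] using this

theorem memz (h : RepAt f A p) (k : ℤ) : it f k p ∈ A := by
  by_cases hk : 0 ≤ k
  · obtain ⟨n, rfl⟩ := Int.eq_ofNat_of_zero_le hk
    exact (h.pt p).2 rfl n
  · refine h.bwz (b := 0) (by omega) ?_
    rw [it_zero]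
    exact h.mem

theorem fix (h : RepAt f A p) (k : ℤ) : it f k p = p := by
  rw [← h.pt]
  intro n
  rw [← it_add]
  exact h.memz _

theorem uniq (h : RepAt f A p) (h' : RepAt f A p') : p = p' := by
  rw [← h'.pt]
  intro n
  exact h.memz _

/-- a fixed point in `A` -/
theorem fixed (h : RepAt f A p) {x : Y} (hx : x ∈ A) (hf : it f 1 x = x) : x = p := by
  rw [← h.pt]
  intro n
  have : ∀ n : ℕ, it f n x = x := by
    intro n
    induction n with
    | zero => simp [it_zero]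
    | succ n ih =>
      push_cast
      rw [it_add, hf, ih]
  rw [this]
  exact hx

variable [CompactSpace Y]

theorem shrink (h : RepAt f A p) {W : Set Y} (hW : IsOpen W) (hp : p ∈ W) :
    ∃ N : ℕ, ∀ x ∈ A, ∀ m : ℤ, N ≤ m → it f (-m) x ∈ W := by
  obtain ⟨N, hN⟩ := cpt_mono (K := Wᶜ) (O := fun n : ℕ => {x | it f n x ∉ A})
    hW.isClosed_compl.isCompact
    (fun n => (h.cl.compl.preimage (it_cont f n)).isOpen)
    (fun n m hnm x hx hx' => hx (h.bwz (by exact_mod_cast hnm) hx'))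
    (fun x hx => by
      by_contra hcon
      push Not at hcon
      apply hx
      rw [(h.pt x).1 (fun n => by
        have := hcon n
        by_contra h1
        exact this h1)]
      exact hp)
  refine ⟨N, fun x hx m hm => ?_⟩
  by_contra hcon
  have h1 := hN _ hcon
  apply h1
  rw [← it_add]
  refine h.bwz (b := 0) (by omega) ?_
  rw [it_zero]
  exact hx

theorem same_iff (h : RepAt f A p) (h' : RepAt f A' p') :
    (∃ n : ℕ, ∀ x ∈ A, it f (-n) x ∈ A') ↔ p = p' := by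
  constructor
  · rintro ⟨n, hn⟩
    have h1 := hn p h.mem
    rw [h.fix] at h1
    exact h'.fixed h1 (h.fix 1)
  · rintro rfl
    obtain ⟨N, hN⟩ := h.shrink h'.cl.isOpen h'.mem
    exact ⟨N, fun x hx => hN x hx N (le_refl _)⟩

/-- the unstable sets do not depend on the neighbourhood -/
theorem wu (h : RepAt f A p) (h' : RepAt f A' p) {a : ℤ} {x : Y} (hx : it f a x ∈ A) :
    ∃ N : ℤ, ∀ b : ℤ, b ≤ N → it f b x ∈ A' := by
  obtain ⟨N, hN⟩ := h.shrink h'.cl.isOpen h'.mem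
  refine ⟨a - N, fun b hb => ?_⟩
  have := hN _ hx (a - b) (by omega)
  rw [← it_add] at this
  convert this using 2
  omega

theorem wun (h : RepAt f A p) (h' : RepAt f A' p) {a : ℤ} {x : Y} (hx : it f a x ∈ A) :
    ∃ n : ℕ, it f (-n) x ∈ A' := by
  obtain ⟨N, hN⟩ := h.wu h' hx
  exact ⟨N.natAbs, hN _ (by omega)⟩

theorem disj [T2Space Y] (h : RepAt f A p) (h' : RepAt f A' p') {a b : ℤ} {x : Y}
    (hx : it f a x ∈ A) (hx' : it f b x ∈ A') : p = p' := by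
  by_contra hne
  obtain ⟨W, W', hW, hW', hp, hp', hd⟩ := t2_separation hne
  obtain ⟨N, hN⟩ := h.shrink hW hp
  obtain ⟨N', hN'⟩ := h'.shrink hW' hp'
  have h1 := hN _ hx (max (N : ℤ) (N' + a - b)) (le_max_left _ _)
  have h2 := hN' _ hx' (max (N : ℤ) (N' + a - b) - a + b) (by
    have := le_max_right (N : ℤ) (N' + a - b)
    omega)
  rw [← it_add] at h1 h2
  refine disjoint_left.1 hd h1 ?_
  convert h2 using 2
  ring

end RepAt

/-- `A n` are the clopen sets; repelling codes -/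
def RC (f : X ≃ₜ X) (u : ℕ) : Prop := ∃ p, RepAt f (cl u) p

/-- the codes `u` and `v` belong to the same point -/
def Sm (f : X ≃ₜ X) (u v : ℕ) : Prop := ∃ n : ℕ, ∀ x ∈ cl u, it f (-n) x ∈ cl v

/-- minimal codes -/
def PV (f : X ≃ₜ X) (u : ℕ) : Prop := RC f u ∧ ∀ v < u, ¬ (RC f v ∧ Sm f v u)

/-- the unstable set of `u` meets the stable set of `w` -/
def Me (f : X ≃ₜ X) (u w : ℕ) : Prop := ∃ x ∈ cl u, ∃ n : ℕ, it f n x ∈ cl w

/-- adjacency of codes -/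
def Ad (f : X ≃ₜ X) (u v : ℕ) : Prop := u ≠ v ∧ ∃ w, PV f⁻¹ w ∧ Me f u w ∧ Me f v w

theorem pv_iff {f : X ≃ₜ X} {u : ℕ} : PV f u ↔ ∃ p, RepAt f (cl u) p ∧
    ∀ v < u, ¬ RepAt f (cl v) p := by
  constructor
  · rintro ⟨⟨p, hp⟩, h⟩
    exact ⟨p, hp, fun v hv hp' => h v hv ⟨⟨p, hp'⟩, (hp'.same_iff hp).2 rfl⟩⟩
  · rintro ⟨p, hp, h⟩
    refine ⟨⟨p, hp⟩, fun v hv => ?_⟩
    rintro ⟨⟨q, hq⟩, h1⟩
    rw [Sm, hq.same_iff hp] at h1
    subst h1
    exact h v hv hq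

theorem exists_pv {f : X ≃ₜ X} {A : Set X} {p : X} (h : RepAt f A p) :
    ∃ u, PV f u ∧ RepAt f (cl u) p := by
  classical
  obtain ⟨n, rfl⟩ := cl_surj h.cl
  have hex : ∃ u, RepAt f (cl u) p := ⟨n, h⟩
  refine ⟨Nat.find hex, pv_iff.2 ⟨p, Nat.find_spec hex, fun v hv => Nat.find_min hex hv⟩,
    Nat.find_spec hex⟩

theorem pv_uniq {f : X ≃ₜ X} {u v : ℕ} {p : X} (hu : PV f u) (hv : PV f v)
    (h : RepAt f (cl u) p) (h' : RepAt f (cl v) p) : u = v := by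
  obtain ⟨q, hq, h1⟩ := pv_iff.1 hu
  obtain ⟨q', hq', h1'⟩ := pv_iff.1 hv
  have e1 := hq.uniq h
  have e2 := hq'.uniq h'
  subst e1
  subst e2
  rcases lt_trichotomy u v with h2 | h2 | h2
  · exact (h1' u h2 h).elim
  · exact h2
  · exact (h1 v h2 h').elim

/-- the homeomorphisms which come from graphs -/
structure Good (f : X ≃ₜ X) : Prop where
  g0 : ∀ u w, RC f u → RC f⁻¹ w → ∃ n : ℕ, ∀ x, it f n x ∈ cl u → x ∉ cl w
  g1 : ∀ N, ∃ u, N ≤ u ∧ PV f u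
  g2 : ∀ u w, RC f u → RC f⁻¹ w → ∃ N : ℕ, ∀ x, x ∉ cl u → it f (-1) x ∈ cl u →
    ∀ n : ℕ, it f n x ∈ cl w → it f N x ∈ cl w
  g3 : ∀ u, RC f u → ∃! z, (z ∉ cl u ∧ it f (-1) z ∈ cl u) ∧
    ∀ w, RC f⁻¹ w → ∀ n : ℕ, it f n z ∉ cl w
  g4 : ∃! z, (∀ u, RC f u → ∀ n : ℕ, it f (-n) z ∉ cl u) ∧
    ∀ w, RC f⁻¹ w → ∀ n : ℕ, it f n z ∉ cl w
  g5 : ∀ w, RC f⁻¹ w → ∃ u1 u2, RC f u1 ∧ RC f u2 ∧ ∃ N : ℕ, ∀ x, x ∈ cl w →
    it f (-1) x ∉ cl w → it f (-N) x ∈ cl u1 ∨ it f (-N) x ∈ cl u2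
  g6 : ∀ u v w w', PV f u → PV f v → u ≠ v → PV f⁻¹ w → PV f⁻¹ w' → Me f u w → Me f v w →
    Me f u w' → Me f v w' → w = w'
  g7 : ∀ u, PV f u → ∀ N, ∃ w, N ≤ w ∧ PV f⁻¹ w ∧ Me f u w ∧ ∀ v, PV f v → Me f v w → v = u
  g8 : ∀ w, RC f⁻¹ w → ∃ u, PV f u ∧ Me f u w

/-- the bipartite graphs -/
structure Bp (V E : Type) (R : V → E → Prop) : Prop where
  inf : Infinite V
  two : ∀ e, ∃ v1 v2, ∀ v, R v e → v = v1 ∨ v = v2
  ne : ∀ e, ∃ v, R v e
  uni : ∀ v v' e e', v ≠ v' → R v e → R v' e → R v e' → R v' e' → e = e'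
  pend : ∀ v, {e | R v e ∧ ∀ v', R v' e → v' = v}.Infinite

end Pool.Agent.H642.CH
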