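import Pool.Agent.H642.CH.CA
import Pool.Graph.R_seed8.H812R3.CantorChar

set_option autoImplicit false

/-! Good homeomorphisms are marked. -/

namespace Pool.Agent.H642.CH

open Set

theorem no_isolated (x : X) {U : Set X} (hU : IsOpen U) (hx : x ∈ U) : ∃ y ∈ U, y ≠ x := by
  obtain ⟨I, u, h1, h2⟩ := isOpen_pi_iff.1 hU x hx
  obtain ⟨n, hn⟩ := Infinite.exists_notMem_finset I
  refine ⟨Function.update x n (!x n), h2 fun i hi => ?_, fun h => ?_⟩
  · have hne : i ≠ n := fun h => hn (by rw [← h]; exact hi)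
    rw [Function.update_of_ne hne]
    exact (h1 i hi).2
  · have := congrFun h n
    rw [Function.update_self] at this
    exact absurd this (by cases x n <;> simp)

/-- coordinates on a clopen set -/
theorem cantor_part {C : Set X} (hC : IsClopen C) (hne : C.Nonempty) :
    ∃ g : X → X, (∀ i, IsClopen {x | x ∈ C ∧ g x i = true}) ∧ ∀ c, ∃! x, x ∈ C ∧ g x = c := by
  classical
  have : CompactSpace C := isCompact_iff_compactSpace.1 hC.isClosed.isCompact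
  have : Nonempty C := hne.to_subtype
  obtain ⟨γ⟩ := Pool.Agent.H812R3.CantorChar.cantor_char (Z := C) Subtype.val
    continuous_subtype_val Subtype.val_injective (fun z U hU hz => by
      obtain ⟨W, hW, rfl⟩ := isOpen_induced_iff.1 hU
      obtain ⟨y, hy, hne'⟩ := no_isolated z.1 (hW.inter hC.isOpen) ⟨hz, z.2⟩
      exact ⟨⟨y, hy.2⟩, hy.1, fun h => hne' (congrArg Subtype.val h)⟩)
  refine ⟨fun x => if h : x ∈ C then γ ⟨x, h⟩ else fun _ => false, fun i => ?_, fun c => ?_⟩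
  · have h1 : IsClopen (γ ⁻¹' {c | c i = true}) := by
      refine IsClopen.preimage ?_ γ.continuous
      exact (isClopen_discrete ({true} : Set Bool)).preimage (continuous_apply i)
    have h2 : {x | x ∈ C ∧ (if h : x ∈ C then γ ⟨x, h⟩ else fun _ => false) i = true} =
        Subtype.val '' (γ ⁻¹' {c | c i = true}) := by
      ext x
      constructor
      · rintro ⟨h3, h4⟩
        rw [dif_pos h3] at h4
        exact ⟨⟨x, h3⟩, h4, rfl⟩
      · rintro ⟨⟨y, hy⟩, h3, rfl⟩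
        refine ⟨hy, ?_⟩
        show (if h : y ∈ C then γ ⟨y, h⟩ else fun _ => false) i = true
        rw [dif_pos hy]
        exact h3
    rw [h2]
    exact ⟨hC.isClosed.isClosedEmbedding_subtypeVal.isClosedMap _ h1.isClosed,
      hC.isOpen.isOpenMap_subtype_val _ h1.isOpen⟩
  · refine ⟨γ.symm c, ⟨(γ.symm c).2, ?_⟩, ?_⟩
    · show (if h : (γ.symm c).1 ∈ C then γ ⟨(γ.symm c).1, h⟩ else fun _ => false) = c
      rw [dif_pos (γ.symm c).2]
      exact γ.apply_symm_apply c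
    · rintro x ⟨hx, h⟩
      simp only at h
      rw [dif_pos hx] at h
      have : (⟨x, hx⟩ : C) = γ.symm c := by
        rw [← h, γ.symm_apply_apply]
      rw [← this]

theorem RepAt.exit {Y : Type} [TopologicalSpace Y] {f : Y ≃ₜ Y} {A : Set Y} {p x : Y} {a : ℤ}
    (hA : RepAt f A p) (h : it f a x ∈ A) (hne : x ≠ p) :
    ∃ n : ℤ, it f n x ∉ A ∧ it f (-1) (it f n x) ∈ A := by
  have h1 : ∃ n : ℕ, it f n x ∉ A := by
    by_contra hcon
    push Not at hcon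
    exact hne ((hA.pt x).1 hcon)
  obtain ⟨n, hn⟩ := h1
  obtain ⟨m, hm, hmin⟩ := Int.exists_least_of_bdd (P := fun n => it f n x ∉ A)
    ⟨a, fun z hz => by
      by_contra hcon
      exact hz (hA.bwz (by omega) h)⟩ ⟨n, hn⟩
  refine ⟨m, hm, ?_⟩
  rw [← it_add]
  by_contra hcon
  have := hmin _ hcon
  omega

/-- forward invariance for attracting points -/
theorem fwz {f : X ≃ₜ X} {B : Set X} {p : X} (h : RepAt f⁻¹ B p) {a b : ℤ} (hab : a ≤ b) {x : X}
    (hx : it f a x ∈ B) : it f b x ∈ B := by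
  have := h.bwz (a := -b) (b := -a) (by omega) (x := x) (by rwa [it_inv, neg_neg])
  rwa [it_inv, neg_neg] at this

theorem fixA {f : X ≃ₜ X} {B : Set X} {p : X} (h : RepAt f⁻¹ B p) (k : ℤ) : it f k p = p := by
  have := h.fix (-k)
  rwa [it_inv, neg_neg] at this

theorem wunA {f : X ≃ₜ X} {B B' : Set X} {p : X} (h : RepAt f⁻¹ B p) (h' : RepAt f⁻¹ B' p)
    {a : ℤ} {x : X} (hx : it f a x ∈ B) : ∃ n : ℕ, it f n x ∈ B' := by
  obtain ⟨n, hn⟩ := h.wun h' (a := -a) (x := x) (by rwa [it_inv, neg_neg])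
  rw [it_inv, neg_neg] at hn
  exact ⟨n, hn⟩

section

variable {f : X ≃ₜ X}

/-- the labels of the repelling points -/
abbrev Vf (f : X ≃ₜ X) : Type := {u // PV f u}

/-- the labels of the attracting points -/
abbrev Ef (f : X ≃ₜ X) : Type := {w // PV f⁻¹ w}

/-- the bipartite graph -/
abbrev Rf (f : X ≃ₜ X) : Vf f → Ef f → Prop := fun u w => Me f u w

noncomputable def qV (v : Vf f) : X := v.2.1.choose

noncomputable def qE (e : Ef f) : X := e.2.1.choose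

theorem hqV (v : Vf f) : RepAt f (cl v.1) (qV v) := v.2.1.choose_spec

theorem hqE (e : Ef f) : RepAt f⁻¹ (cl e.1) (qE e) := e.2.1.choose_spec

theorem qdV (v v' : Vf f) (x : X) (a b : ℤ) (h : it f a x ∈ cl v.1) (h' : it f b x ∈ cl v'.1) :
    v = v' := by
  have h1 := (hqV v).disj (hqV v') h h'
  refine Subtype.ext (pv_uniq v.2 v'.2 (hqV v) ?_)
  rw [h1]
  exact hqV v'

theorem qdE (v v' : Ef f) (x : X) (a b : ℤ) (h : it f a x ∈ cl v.1) (h' : it f b x ∈ cl v'.1) :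
    v = v' := by
  have h1 := (hqE v).disj (hqE v') (a := -a) (b := -b) (x := x) (by rwa [it_inv, neg_neg])
    (by rwa [it_inv, neg_neg])
  refine Subtype.ext (pv_uniq v.2 v'.2 (hqE v) ?_)
  rw [h1]
  exact hqE v'

theorem qR (v : Vf f) (e : Ef f) (x : X) (a b : ℤ) (h : it f a x ∈ cl v.1)
    (h' : it f b x ∈ cl e.1) : Rf f v e := by
  refine ⟨it f (min a b) x, (hqV v).bwz (min_le_left _ _) h, (b - min a b).toNat, ?_⟩
  rw [← it_add]
  convert h' using 2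
  have := min_le_right a b
  omega

theorem codeV {u : ℕ} (h : RC f u) : ∃ v : Vf f, RepAt f (cl u) (qV v) := by
  obtain ⟨p, hp⟩ := h
  obtain ⟨v, hv, hv'⟩ := exists_pv hp
  refine ⟨⟨v, hv⟩, ?_⟩
  rw [(hqV ⟨v, hv⟩).uniq hv']
  exact hp

theorem codeE {u : ℕ} (h : RC f⁻¹ u) : ∃ v : Ef f, RepAt f⁻¹ (cl u) (qE v) := by
  obtain ⟨p, hp⟩ := h
  obtain ⟨v, hv, hv'⟩ := exists_pv hp
  refine ⟨⟨v, hv⟩, ?_⟩
  rw [(hqE ⟨v, hv⟩).uniq hv']
  exact hp

theorem stab_iff {z : X} : (∀ w, RC f⁻¹ w → ∀ n : ℕ, it f n z ∉ cl w) ↔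
    ∀ (e : Ef f) b, it f b z ∉ cl e.1 := by
  constructor
  · intro h e b hb
    refine h e.1 e.2.1 b.natAbs (fwz (hqE e) (by omega) hb)
  · intro h w hw n hn
    obtain ⟨e, he⟩ := codeE hw
    obtain ⟨m, hm⟩ := wunA he (hqE e) hn
    exact h e m hm

theorem unst_iff {z : X} : (∀ w, RC f w → ∀ n : ℕ, it f (-n) z ∉ cl w) ↔
    ∀ (v : Vf f) b, it f b z ∉ cl v.1 := by
  constructor
  · intro h e b hb
    refine h e.1 e.2.1 b.natAbs ((hqV e).bwz (by omega) hb)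
  · intro h w hw n hn
    obtain ⟨e, he⟩ := codeV hw
    obtain ⟨m, hm⟩ := he.wun (hqV e) hn
    exact h e _ hm

variable (G : Good f)

include G

theorem qne (v : Vf f) (e : Ef f) : qE e ∉ cl v.1 := by
  intro h
  obtain ⟨n, hn⟩ := G.g0 v.1 e.1 v.2.1 e.2.1
  refine hn (qE e) ?_ (hqE e).mem
  rw [fixA (hqE e)]
  exact h

/-- the two neighbours -/
theorem qtwo (e : Ef f) : ∃ v1 v2 : Vf f, ∀ x b, it f b x ∈ cl e.1 → x ≠ qE e →
    ∃ a, it f a x ∈ cl v1.1 ∨ it f a x ∈ cl v2.1 := by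
  obtain ⟨u1, u2, h1, h2, N, hN⟩ := G.g5 e.1 e.2.1
  obtain ⟨v1, hv1⟩ := codeV h1
  obtain ⟨v2, hv2⟩ := codeV h2
  refine ⟨v1, v2, fun x b hb hx => ?_⟩
  obtain ⟨n, h3, h4⟩ := (hqE e).exit (a := -b) (x := x) (by rwa [it_inv, neg_neg]) hx
  rw [it_inv] at h3
  rw [it_inv, it_inv, ← it_add, neg_neg] at h4
  have h5 := hN (it f (1 + -n) x) h4 (by
    rw [← it_add]
    convert h3 using 3
    omega)
  rcases h5 with h5 | h5
  · obtain ⟨m, hm⟩ := hv1.wun (hqV v1) h5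
    rw [← it_add] at hm
    exact ⟨_, Or.inl hm⟩
  · obtain ⟨m, hm⟩ := hv2.wun (hqV v2) h5
    rw [← it_add] at hm
    exact ⟨_, Or.inr hm⟩

theorem qtwo' (e : Ef f) : ∃ v1 v2 : Vf f, (∀ x b, it f b x ∈ cl e.1 → x ≠ qE e →
    ∃ a, it f a x ∈ cl v1.1 ∨ it f a x ∈ cl v2.1) ∧ ∀ v, Rf f v e → v = v1 ∨ v = v2 := by
  obtain ⟨v1, v2, h⟩ := qtwo G e
  refine ⟨v1, v2, h, fun v hv => ?_⟩
  obtain ⟨x, hx, n, hn⟩ := hv
  obtain ⟨a, h1 | h1⟩ := h x n hn (fun h2 => qne G v e (h2 ▸ hx))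
  · exact Or.inl (qdV v v1 x 0 a (by rwa [it_zero]) h1)
  · exact Or.inr (qdV v v2 x 0 a (by rwa [it_zero]) h1)

/-- the uniform entrance time -/
theorem qtime (e : Ef f) : ∃ N : ℕ, ∀ v : Vf f, ∀ x, x ∉ cl v.1 → it f (-1) x ∈ cl v.1 →
    ∀ b, it f b x ∈ cl e.1 → it f N x ∈ cl e.1 := by
  obtain ⟨v1, v2, -, h⟩ := qtwo' G e
  obtain ⟨N1, h1⟩ := G.g2 v1.1 e.1 v1.2.1 e.2.1
  obtain ⟨N2, h2⟩ := G.g2 v2.1 e.1 v2.2.1 e.2.1
  refine ⟨max N1 N2, fun v x h3 h4 b hb => ?_⟩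
  have h5 : Rf f v e := qR v e x (-1) b h4 hb
  have h6 : it f b.natAbs x ∈ cl e.1 := fwz (hqE e) (by omega) hb
  rcases h v h5 with rfl | rfl
  · exact fwz (hqE e) (by simp) (h1 x h3 h4 _ h6)
  · exact fwz (hqE e) (by simp) (h2 x h3 h4 _ h6)

theorem qfar (e : Ef f) (x : X) (b : ℤ) (hb : it f b x ∈ cl e.1) (hx : x ≠ qE e) :
    ∃ (v : Vf f) (a : ℤ), it f a x ∈ cl v.1 := by
  obtain ⟨v1, v2, h⟩ := qtwo G e
  obtain ⟨a, h1 | h1⟩ := h x b hb hx
  · exact ⟨v1, a, h1⟩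
  · exact ⟨v2, a, h1⟩

/-- the saturated neighbourhoods of the attracting points -/
theorem qU (e : Ef f) : ∃ U : Set X, IsClopen U ∧ ∀ x, x ∈ U ↔ x = qE e ∨
    ∃ v : Vf f, (∃ a, it f a x ∈ cl v.1) ∧ x ∉ cl v.1 ∧ ∃ b, it f b x ∈ cl e.1 := by
  obtain ⟨v1, v2, h1, h2⟩ := qtwo' G e
  obtain ⟨N, hN⟩ := qtime G e
  refine ⟨{x | it f N x ∈ cl e.1} ∩ ((cl v1.1)ᶜ ∩ (cl v2.1)ᶜ),
    ((cl_clopen _).preimage (it_cont f _)).inter ((cl_clopen _).compl.inter (cl_clopen _).compl),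
    fun x => ?_⟩
  constructor
  · rintro ⟨h3, h4, h5⟩
    by_cases hx : x = qE e
    · exact Or.inl hx
    · right
      obtain ⟨a, h6 | h6⟩ := h1 x N h3 hx
      · exact ⟨v1, ⟨a, h6⟩, h4, N, h3⟩
      · exact ⟨v2, ⟨a, h6⟩, h5, N, h3⟩
  · rintro (rfl | ⟨v, ⟨a, h3⟩, h4, b, h5⟩)
    · refine ⟨?_, qne G v1 e, qne G v2 e⟩
      show it f N (qE e) ∈ cl e.1
      rw [fixA (hqE e)]
      exact (hqE e).mem
    · have h6 : x ≠ qV v := by
        rintro rfl
        exact h4 (hqV v).mem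
      obtain ⟨n, h7, h8⟩ := (hqV v).exit h3 h6
      have h9 : n ≤ 0 := by
        by_contra hcon
        rw [← it_add] at h8
        have := (hqV v).bwz (a := 0) (by omega) h8
        rw [it_zero] at this
        exact h4 this
      have h10 := hN v _ h7 h8 (b - n) (by
        rw [← it_add]
        convert h5 using 2
        omega)
      rw [← it_add] at h10
      refine ⟨fwz (hqE e) (by omega) h10, fun h11 => ?_, fun h11 => ?_⟩
      · have := qdV v v1 x a 0 h3 (by rwa [it_zero])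
        subst this
        exact h4 h11
      · have := qdV v v2 x a 0 h3 (by rwa [it_zero])
        subst this
        exact h4 h11

theorem qC (v : Vf f) (e : Ef f) : ∃ C : Set X, IsClopen C ∧ (∀ x, x ∈ C ↔
    (x ∉ cl v.1 ∧ it f (-1) x ∈ cl v.1) ∧ ∃ b, it f b x ∈ cl e.1) ∧ (Rf f v e → C.Nonempty) := by
  obtain ⟨N, hN⟩ := qtime G e
  refine ⟨{x | (x ∉ cl v.1 ∧ it f (-1) x ∈ cl v.1) ∧ it f N x ∈ cl e.1},
    ((cl_clopen _).compl.inter ((cl_clopen _).preimage (it_cont f _))).inter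
      ((cl_clopen _).preimage (it_cont f _)), fun x => ⟨fun h => ⟨h.1, N, h.2⟩, fun h => ⟨h.1, ?_⟩⟩,
    fun h => ?_⟩
  · obtain ⟨b, hb⟩ := h.2
    exact hN v x h.1.1 h.1.2 b hb
  · obtain ⟨x, hx, n, hn⟩ := h
    have hx' : it f 0 x ∈ cl v.1 := by rwa [it_zero]
    obtain ⟨k, h7, h8⟩ := (hqV v).exit (x := x) hx' (by
      rintro rfl
      rw [(hqV v).fix] at hn
      have := (hqE e).fixed hn (by rw [it_inv, (hqV v).fix])
      exact qne G v e (this ▸ hx))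
    refine ⟨it f k x, ⟨h7, h8⟩, hN v _ h7 h8 (n - k) ?_⟩
    rw [← it_add]
    convert hn using 2
    omega

omit G in
theorem qg (v : Vf f) (e : Ef f) (C : Set X) (hC : IsClopen C) (hne : Rf f v e → C.Nonempty) :
    ∃ g : X → X, (∀ i, IsClopen {x | x ∈ C ∧ g x i = true}) ∧
      (Rf f v e → ∀ c, ∃! x, x ∈ C ∧ g x = c) := by
  by_cases h : C.Nonempty
  · obtain ⟨g, h1, h2⟩ := cantor_part hC h
    exact ⟨g, h1, fun _ => h2⟩
  · refine ⟨fun x => x, fun i => ?_, fun h1 => (h (hne h1)).elim⟩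
    have : {x : X | x ∈ C ∧ x i = true} = ∅ := by
      rw [Set.eq_empty_iff_forall_notMem]
      rintro x ⟨h1, -⟩
      exact h ⟨x, h1⟩
    rw [this]
    exact isClopen_empty

theorem exists_dt : Nonempty (Dt f (Vf f) (Ef f) (Rf f)) := by
  choose U hU1 hU2 using qU G
  choose C hC1 hC2 hC3 using qC G
  choose g hg1 hg2 using fun v e => qg v e (C v e) (hC1 v e) (hC3 v e)
  refine ⟨{
    A := fun v => cl v.1
    pV := qV
    hV := hqV
    B := fun e => cl e.1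
    pE := qE
    hE := hqE
    dV := qdV
    dE := qdE
    hR := qR
    ne := qne G
    U := U
    clU := hU1
    hU := hU2
    C := C
    hC := hC2
    g := g
    clg := hg1
    hg := hg2
    far := qfar G
    wan := ?_
    inf := ?_ }⟩
  · intro v
    have h1 := G.g3 v.1 v.2.1
    simp only [stab_iff] at h1
    exact h1
  · have h1 := G.g4
    simp only [stab_iff, unst_iff] at h1
    exact h1

theorem good_mk : Nonempty (Mk f (Vf f) (Ef f) (Rf f)) := by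
  obtain ⟨D⟩ := exists_dt G
  exact D.exists_mk

theorem good_bp : Bp (Vf f) (Ef f) (Rf f) where
  inf := by
    have : {u | PV f u}.Infinite := by
      intro hfin
      obtain ⟨N, hN⟩ := hfin.bddAbove
      obtain ⟨u, h1, h2⟩ := G.g1 (N + 1)
      have := hN h2
      omega
    exact this.to_subtype
  two := fun e => by
    obtain ⟨v1, v2, -, h⟩ := qtwo' G e
    exact ⟨v1, v2, h⟩
  ne := fun e => by
    obtain ⟨u, hu, hm⟩ := G.g8 e.1 e.2.1
    exact ⟨⟨u, hu⟩, hm⟩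
  uni := fun v v' e e' hne h1 h2 h3 h4 => Subtype.ext
    (G.g6 v.1 v'.1 e.1 e'.1 v.2 v'.2 (fun h => hne (Subtype.ext h)) e.2 e'.2 h1 h2 h3 h4)
  pend := fun v => by
    intro hfin
    obtain ⟨N, hN⟩ := (hfin.image Subtype.val).bddAbove
    obtain ⟨w, h1, h2, h3, h4⟩ := G.g7 v.1 v.2 (N + 1)
    have := hN (mem_image_of_mem Subtype.val (x := (⟨w, h2⟩ : Ef f))
      ⟨h3, fun v' hv' => Subtype.ext (h4 v'.1 v'.2 hv')⟩)
    simp only at this
    omega

end

end Pool.Agent.H642.CH
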