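import Pool.Agent.H642.CH.DA
import Pool.Graph.R_seed8.H812R3.CantorChar

set_option autoImplicit false

/-! Every bipartite graph comes from a homeomorphism of the Cantor space. -/

namespace Pool.Agent.H642.CH

open Set Filter Topology

variable {V E : Type} {R : V → E → Prop}

/-- the topology of the model -/
noncomputable abbrev tp : TopologicalSpace (Pt V E R) := TopologicalSpace.induced cd inferInstance

attribute [local instance] tp

theorem cd_cont : Continuous (cd : Pt V E R → Co V E → Bool) := continuous_induced_dom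

theorem cp_clopen (s : Co V E) : IsClopen {p : Pt V E R | cp p s} := by
  have h1 : {p : Pt V E R | cp p s} = {p : Pt V E R | cd p s = true} := by
    ext p
    exact cd_iff.symm
  rw [h1]
  have h2 : Continuous (fun p : Pt V E R => cd p s) := (continuous_apply s).comp cd_cont
  exact (isClopen_discrete ({true} : Set Bool)).preimage h2

theorem cont_into {f : Pt V E R → Pt V E R} (h : ∀ s, ∃ t, ∀ p, cp (f p) s ↔ cp p t) :
    Continuous f := by
  refine continuous_induced_rng.2 (continuous_pi fun s => ?_)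
  obtain ⟨t, ht⟩ := h s
  have : (fun p => (cd ∘ f) p s) = fun p => cd p t := by
    funext p
    rw [Bool.eq_iff_iff]
    show cd (f p) s = true ↔ _
    rw [cd_iff, cd_iff]
    exact ht p
  rw [this]
  exact (continuous_apply t).comp cd_cont

theorem sh_cont (k : ℤ) : Continuous (sh k : Pt V E R → Pt V E R) := by
  refine cont_into fun s => ?_
  rcases s with ⟨v, n⟩ | ⟨e, n⟩ | ⟨⟨v, e⟩, ⟨n, i⟩⟩
  · exact ⟨.inl (v, n - k), fun p => inV_sh v n k p⟩
  · exact ⟨.inr (.inl (e, n - k)), fun p => inE_sh e n k p⟩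
  · exact ⟨.inr (.inr ((v, e), (n - k, i))), fun p => inC_sh v e n k i p⟩

/-- the shift homeomorphism -/
noncomputable def shh : Pt V E R ≃ₜ Pt V E R where
  toFun := sh 1
  invFun := sh (-1)
  left_inv := fun p => by
    rw [← sh_add]
    exact sh_zero p
  right_inv := fun p => by
    rw [← sh_add]
    exact sh_zero p
  continuous_toFun := sh_cont 1
  continuous_invFun := sh_cont (-1)

/-- the marking of the shift -/
noncomputable def mk_shh : Mk (shh : Pt V E R ≃ₜ Pt V E R) V E R where
  Φ := Equiv.refl _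
  eq := fun _ => rfl
  clV := fun v => cp_clopen (.inl (v, 0))
  clE := fun e => cp_clopen (.inr (.inl (e, 0)))
  clC := fun v e i => cp_clopen (.inr (.inr ((v, e), (0, i))))

theorem conv_iff {l : Filter (Pt V E R)} {p : Pt V E R}
    (h : ∀ s, ∀ᶠ q in l, (cp q s ↔ cp p s)) : l ≤ 𝓝 p := by
  rw [nhds_induced, ← tendsto_iff_comap]
  refine tendsto_pi_nhds.2 fun s => ?_
  refine tendsto_nhds_of_eventually_eq ((h s).mono fun q hq => ?_)
  rw [Bool.eq_iff_iff, cd_iff, cd_iff]
  exact hq

theorem inC_E {v : V} {e : E} {n : ℤ} {i : ℕ} {p : Pt V E R} (hp : inC v e n i p) :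
    inE e n p := by
  cases p with
  | inf => exact hp
  | rep _ => exact hp
  | att _ => exact hp.elim
  | wan _ _ => exact hp
  | blk _ _ _ _ _ => exact ⟨hp.2.1, hp.2.2.1.symm.le⟩

theorem inC_V {v : V} {e : E} {n : ℤ} {i : ℕ} {p : Pt V E R} (hp : inC v e n i p) :
    inV v (n + 1) p := by
  cases p with
  | inf => exact hp
  | rep _ => exact hp.elim
  | att _ => exact hp
  | wan _ _ => exact hp.elim
  | blk _ _ _ _ _ => exact ⟨hp.1, by rw [hp.2.2.1]; omega⟩

/-- a jump of a monotone predicate on the integers -/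
theorem jump {P : ℤ → Prop} (hm : ∀ n m, n ≤ m → P n → P m) {a b : ℤ} (ha : ¬ P a) (hb : P b) :
    ∃ n, ¬ P n ∧ P (n + 1) := by
  by_contra hcon
  push Not at hcon
  have h1 : ∀ k : ℕ, ¬ P (a + k) := by
    intro k
    induction k with
    | zero => simpa using ha
    | succ k ih =>
      have := hcon _ ih
      push_cast
      rwa [← add_assoc]
  rcases le_total a b with h | h
  · obtain ⟨k, hk⟩ := Int.le.dest h
    exact h1 k (hk ▸ hb)
  · exact ha (hm _ _ h hb)

theorem compact_model (hfin : ∀ e, {v | R v e}.Finite) : CompactSpace (Pt V E R) := by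
  classical
  refine ⟨isCompact_iff_ultrafilter_le_nhds.2 fun 𝓤 _ => ?_⟩
  suffices h : ∃ p : Pt V E R, ∀ s, ∀ᶠ q in (𝓤 : Filter (Pt V E R)), (cp q s ↔ cp p s) by
    obtain ⟨p, hp⟩ := h
    exact ⟨p, mem_univ _, conv_iff hp⟩
  -- eventually true or eventually false
  have dich : ∀ {P : Pt V E R → Prop}, ¬ (∀ᶠ q in (𝓤 : Filter (Pt V E R)), P q) →
      ∀ᶠ q in (𝓤 : Filter (Pt V E R)), ¬ P q := fun {P} h => Ultrafilter.eventually_not.2 h
  have key : ∀ {p : Pt V E R}, (∀ v n, (∀ᶠ q in (𝓤 : Filter (Pt V E R)), inV v n q) ↔ inV v n p) →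
      (∀ e n, (∀ᶠ q in (𝓤 : Filter (Pt V E R)), inE e n q) ↔ inE e n p) →
      (∀ v e n i, (∀ᶠ q in (𝓤 : Filter (Pt V E R)), inC v e n i q) ↔ inC v e n i p) →
      ∃ p : Pt V E R, ∀ s, ∀ᶠ q in (𝓤 : Filter (Pt V E R)), (cp q s ↔ cp p s) := by
    intro p h1 h2 h3
    refine ⟨p, fun s => ?_⟩
    have h4 : (∀ᶠ q in (𝓤 : Filter (Pt V E R)), cp q s) ↔ cp p s := by
      rcases s with ⟨v, n⟩ | ⟨e, n⟩ | ⟨⟨v, e⟩, ⟨n, i⟩⟩
      · exact h1 v n
      · exact h2 e n
      · exact h3 v e n i
    by_cases h5 : cp p s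
    · exact (h4.2 h5).mono fun q hq => iff_of_true hq h5
    · exact (dich (fun h => h5 (h4.1 h))).mono fun q hq => iff_of_false hq h5
  have dj : ∀ {P : Pt V E R → Prop}, (∀ᶠ q in (𝓤 : Filter (Pt V E R)), P q) → ∃ q, P q :=
    fun h => h.exists
  by_cases hV : ∃ v n, ∀ᶠ q in (𝓤 : Filter (Pt V E R)), inV v n q
  · obtain ⟨v, n0, h0⟩ := hV
    have huv : ∀ {v' n}, (∀ᶠ q in (𝓤 : Filter (Pt V E R)), inV v' n q) → v = v' := by
      intro v' n h
      obtain ⟨q, h1, h2⟩ := (h0.and h).exists
      exact inV_uniq h1 h2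
    by_cases hall : ∀ n, ∀ᶠ q in (𝓤 : Filter (Pt V E R)), inV v n q
    · -- the repelling point
      refine key (p := .rep v) (fun v' n => ⟨fun h => huv h, fun h => ?_⟩) (fun e n =>
        ⟨fun h => ?_, fun h => h.elim⟩) (fun v' e n i => ⟨fun h => ?_, fun h => h.elim⟩)
      · have : v = v' := h
        rw [← this]
        exact hall n
      · obtain ⟨q, h1, h2⟩ := ((hall n).and h).exists
        obtain ⟨_, k, _, _, h3, h4⟩ := blk_of h1 h2
        omega
      · have h5 : ∀ᶠ q in (𝓤 : Filter (Pt V E R)), inE e n q := h.mono fun q hq => inC_E hq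
        obtain ⟨q, h1, h2⟩ := ((hall n).and h5).exists
        obtain ⟨_, k, _, _, h3, h4⟩ := blk_of h1 h2
        omega
    · obtain ⟨a, ha⟩ := not_forall.1 hall
      obtain ⟨n, hn, hn'⟩ := jump (P := fun n => ∀ᶠ q in (𝓤 : Filter (Pt V E R)), inV v n q)
        (fun n m h h1 => h1.mono fun q hq => inV_mono h hq) ha h0
      have hval : ∀ m, (∀ᶠ q in (𝓤 : Filter (Pt V E R)), inV v m q) ↔ n < m := by
        intro m
        constructor
        · intro h
          by_contra hcon
          exact hn (h.mono fun q hq => inV_mono (by omega) hq)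
        · intro h
          exact hn'.mono fun q hq => inV_mono (by omega) hq
      by_cases hE : ∃ e m, ∀ᶠ q in (𝓤 : Filter (Pt V E R)), inE e m q
      · obtain ⟨e, m, hm⟩ := hE
        have hblk : ∀ᶠ q in (𝓤 : Filter (Pt V E R)), ∃ (h : R v e) (c : ℕ → Bool),
            q = .blk v e h n c := by
          filter_upwards [hm, hn', dich hn] with q h1 h2 h3
          obtain ⟨h, k, c, rfl, h4, h5⟩ := blk_of h2 h1
          have h6 : k = n := by
            have h7 : ¬ (k < n) := fun h8 => h3 ⟨rfl, h8⟩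
            omega
          subst h6
          exact ⟨h, c, rfl⟩
        obtain ⟨q0, hR, c0, -⟩ := hblk.exists
        let c : ℕ → Bool := fun i => decide (∀ᶠ q in (𝓤 : Filter (Pt V E R)), inC v e n i q)
        refine key (p := .blk v e hR n c) (fun v' m => ⟨fun h => ?_, fun h => ?_⟩) (fun e' m =>
          ⟨fun h => ?_, fun h => ?_⟩) (fun v' e' m i => ⟨fun h => ?_, fun h => ?_⟩)
        · have h1 := huv h
          subst h1
          exact ⟨rfl, (hval m).1 h⟩
        · obtain ⟨rfl, h1⟩ := h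
          exact (hval m).2 h1
        · obtain ⟨q, ⟨h1, c1, rfl⟩, h2⟩ := (hblk.and h).exists
          exact h2
        · filter_upwards [hblk] with q hq
          obtain ⟨h1, c1, rfl⟩ := hq
          exact h
        · obtain ⟨q, ⟨h1, c1, rfl⟩, h2⟩ := (hblk.and h).exists
          obtain ⟨rfl, rfl, rfl, h3⟩ := h2
          refine ⟨rfl, rfl, rfl, ?_⟩
          simpa [c] using h
        · obtain ⟨rfl, rfl, rfl, h3⟩ := h
          simpa [c] using h3
      · have hE : ∀ e m, ¬ ∀ᶠ q in (𝓤 : Filter (Pt V E R)), inE e m q :=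
          fun e m h => hE ⟨e, m, h⟩
        refine key (p := .wan v n) (fun v' m => ⟨fun h => ?_, fun h => ?_⟩) (fun e' m =>
          ⟨fun h => hE _ _ h, fun h => h.elim⟩) (fun v' e' m i => ⟨fun h => ?_, fun h => h.elim⟩)
        · have h1 := huv h
          subst h1
          exact ⟨rfl, (hval m).1 h⟩
        · obtain ⟨rfl, h1⟩ := h
          exact (hval m).2 h1
        · exact hE e' m (h.mono fun q hq => inC_E hq)
  · have hV : ∀ v n, ¬ ∀ᶠ q in (𝓤 : Filter (Pt V E R)), inV v n q :=
      fun v n h => hV ⟨v, n, h⟩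
    by_cases hE : ∃ e m, ∀ᶠ q in (𝓤 : Filter (Pt V E R)), inE e m q
    · obtain ⟨e, m0, hm0⟩ := hE
      have hall : ∀ m, ∀ᶠ q in (𝓤 : Filter (Pt V E R)), inE e m q := by
        by_contra hcon
        obtain ⟨a, ha⟩ := not_forall.1 hcon
        obtain ⟨n, hn, hn'⟩ := jump (P := fun n => ¬ ∀ᶠ q in (𝓤 : Filter (Pt V E R)), inE e n q)
          (fun n m h h1 h2 => h1 (h2.mono fun q hq => inE_mono h hq))
          (a := m0) (b := a) (not_not.2 hm0) ha
        rw [not_not] at hn
        have h1 : ∀ᶠ q in (𝓤 : Filter (Pt V E R)), ∃ v ∈ {v | R v e}, inV v (n + 1) q := by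
          filter_upwards [hn, dich hn'] with q h1 h2
          cases q with
          | inf => exact h1.elim
          | rep _ => exact h1.elim
          | att _ => exact (h2 h1).elim
          | wan _ _ => exact h1.elim
          | blk v' e' h k c =>
            obtain ⟨rfl, h3⟩ := h1
            have h4 : ¬ (n + 1 ≤ k) := fun h5 => h2 ⟨rfl, h5⟩
            exact ⟨v', h, rfl, by omega⟩
        have h2 : ∀ᶠ q in (𝓤 : Filter (Pt V E R)), ∀ v ∈ {v | R v e}, ¬ inV v (n + 1) q :=
          (eventually_all_finite (hfin e)).2 fun v _ => dich (hV v (n + 1))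
        obtain ⟨q, ⟨v, h3, h4⟩, h5⟩ := (h1.and h2).exists
        exact h5 v h3 h4
      refine key (p := .att e) (fun v' n => ⟨fun h => hV _ _ h, fun h => h.elim⟩) (fun e' n =>
        ⟨fun h => ?_, fun h => ?_⟩) (fun v' e' n i => ⟨fun h => ?_, fun h => h.elim⟩)
      · obtain ⟨q, h1, h2⟩ := (hm0.and h).exists
        exact inE_uniq h1 h2
      · have : e = e' := h
        rw [← this]
        exact hall n
      · exact hV v' (n + 1) (h.mono fun q hq => inC_V hq)
    · have hE : ∀ e m, ¬ ∀ᶠ q in (𝓤 : Filter (Pt V E R)), inE e m q :=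
        fun e m h => hE ⟨e, m, h⟩
      exact key (p := .inf) (fun v' n => ⟨fun h => hV _ _ h, fun h => h.elim⟩) (fun e' n =>
        ⟨fun h => hE _ _ h, fun h => h.elim⟩) (fun v' e' n i =>
        ⟨fun h => hE _ _ (h.mono fun q hq => inC_E hq), fun h => h.elim⟩)

/-- no isolated points -/
theorem perf_model (hB : Bp V E R) (p : Pt V E R) (U : Set (Pt V E R)) (hU : IsOpen U)
    (hp : p ∈ U) : ∃ q ∈ U, q ≠ p := by
  suffices h : ∃ q : ℕ → Pt V E R, (∀ k, q k ≠ p) ∧
      ∀ s, ∀ᶠ k in atTop, (cp (q k) s ↔ cp p s) by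
    obtain ⟨q, h1, h2⟩ := h
    have h3 : Tendsto q atTop (𝓝 p) := conv_iff fun s => h2 s
    obtain ⟨k, hk⟩ := (h3.eventually (hU.mem_nhds hp)).exists
    exact ⟨q k, hk, h1 k⟩
  cases p with
  | inf =>
    have := hB.inf
    let v := Infinite.natEmbedding V
    refine ⟨fun k => .wan (v k) 0, fun k h => (by cases h), fun s => ?_⟩
    rcases s with ⟨v', n⟩ | ⟨e, n⟩ | ⟨⟨v', e⟩, ⟨n, i⟩⟩
    · by_cases h : ∃ k, v k = v'
      · obtain ⟨k, hk⟩ := h
        filter_upwards [eventually_gt_atTop k] with j hj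
        refine ⟨fun h1 => ?_, fun h1 => h1.elim⟩
        have h2 : v j = v k := h1.1.trans hk.symm
        have h3 := v.injective h2
        omega
      · exact Eventually.of_forall fun j => ⟨fun h1 => h ⟨j, h1.1⟩, fun h1 => h1.elim⟩
    · exact Eventually.of_forall fun j => Iff.rfl
    · exact Eventually.of_forall fun j => Iff.rfl
  | rep v =>
    refine ⟨fun k => .wan v (-(k : ℤ)), fun k h => (by cases h), fun s => ?_⟩
    rcases s with ⟨v', n⟩ | ⟨e, n⟩ | ⟨⟨v', e⟩, ⟨n, i⟩⟩
    · filter_upwards [eventually_gt_atTop n.natAbs] with j hj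
      refine ⟨fun h1 => h1.1, fun h1 => ⟨h1, ?_⟩⟩
      omega
    · exact Eventually.of_forall fun j => Iff.rfl
    · exact Eventually.of_forall fun j => Iff.rfl
  | att e =>
    obtain ⟨v, hv⟩ := hB.ne e
    refine ⟨fun k => .blk v e hv k (fun _ => true), fun k h => (by cases h), fun s => ?_⟩
    rcases s with ⟨v', n⟩ | ⟨e', n⟩ | ⟨⟨v', e'⟩, ⟨n, i⟩⟩
    · filter_upwards [eventually_gt_atTop n.natAbs] with j hj
      refine ⟨fun h1 => ?_, fun h1 => h1.elim⟩
      have := h1.2
      omega
    · filter_upwards [eventually_gt_atTop n.natAbs] with j hj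
      refine ⟨fun h1 => h1.1, fun h1 => ⟨h1, ?_⟩⟩
      omega
    · filter_upwards [eventually_gt_atTop n.natAbs] with j hj
      refine ⟨fun h1 => ?_, fun h1 => h1.elim⟩
      have := h1.2.2.1
      omega
  | wan v n =>
    have hinf := (hB.pend v).to_subtype
    let e := Infinite.natEmbedding {e | R v e ∧ ∀ v', R v' e → v' = v}
    refine ⟨fun k => .blk v (e k).1 (e k).2.1 n (fun _ => true), fun k h => (by cases h),
      fun s => ?_⟩
    rcases s with ⟨v', m⟩ | ⟨e', m⟩ | ⟨⟨v', e'⟩, ⟨m, i⟩⟩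
    · exact Eventually.of_forall fun j => Iff.rfl
    · by_cases h : ∃ k, (e k).1 = e'
      · obtain ⟨k, hk⟩ := h
        filter_upwards [eventually_gt_atTop k] with j hj
        refine ⟨fun h1 => ?_, fun h1 => h1.elim⟩
        have h2 : e j = e k := Subtype.ext (h1.1.trans hk.symm)
        have h3 := e.injective h2
        omega
      · exact Eventually.of_forall fun j => ⟨fun h1 => h ⟨j, h1.1⟩, fun h1 => h1.elim⟩
    · by_cases h : ∃ k, (e k).1 = e'
      · obtain ⟨k, hk⟩ := h
        filter_upwards [eventually_gt_atTop k] with j hj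
        refine ⟨fun h1 => ?_, fun h1 => h1.elim⟩
        have h2 : e j = e k := Subtype.ext (h1.2.1.trans hk.symm)
        have h3 := e.injective h2
        omega
      · exact Eventually.of_forall fun j => ⟨fun h1 => h ⟨j, h1.2.1⟩, fun h1 => h1.elim⟩
  | blk v e hv n c =>
    refine ⟨fun k => .blk v e hv n (Function.update c k (!c k)), fun k h => ?_, fun s => ?_⟩
    · injection h with _ _ _ h1
      have := congrFun h1 k
      rw [Function.update_self] at this
      cases hc : c k <;> simp [hc] at this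
    · rcases s with ⟨v', m⟩ | ⟨e', m⟩ | ⟨⟨v', e'⟩, ⟨m, i⟩⟩
      · exact Eventually.of_forall fun j => Iff.rfl
      · exact Eventually.of_forall fun j => Iff.rfl
      · filter_upwards [eventually_gt_atTop i] with j hj
        show (v = v' ∧ e = e' ∧ n = m ∧ Function.update c j (!c j) i = true) ↔
          (v = v' ∧ e = e' ∧ n = m ∧ c i = true)
        rw [Function.update_of_ne (by omega)]

/-- every bipartite graph comes from a homeomorphism of the Cantor space -/
theorem exists_mk [Countable V] [Countable E] (hB : Bp V E R) :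
    ∃ f : X ≃ₜ X, Nonempty (Mk f V E R) := by
  have hfin : ∀ e, {v | R v e}.Finite := by
    intro e
    obtain ⟨v1, v2, h⟩ := hB.two e
    exact ((Set.finite_singleton v2).insert v1).subset fun v hv => h v hv
  have := compact_model hfin
  have hne : Nonempty (Pt V E R) := ⟨.inf⟩
  have hV := hB.inf
  obtain ⟨v0⟩ : Nonempty V := inferInstance
  have hCo : Nonempty (Co V E) := ⟨.inl (v0, 0)⟩
  obtain ⟨g, hg⟩ := exists_surjective_nat (Co V E)
  obtain ⟨h⟩ := Pool.Agent.H812R3.CantorChar.cantor_char (Z := Pt V E R)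
    (fun p n => cd p (g n))
    (continuous_pi fun n => (continuous_apply (g n)).comp cd_cont)
    (fun p q hpq => cd_inj (funext fun s => by
      obtain ⟨n, rfl⟩ := hg s
      exact congrFun hpq n))
    (fun p U hU hp => perf_model hB p U hU hp)
  refine ⟨(h.symm.trans shh).trans h, ⟨mk_shh.transport h fun y => ?_⟩⟩
  show h (shh y) = h (shh (h.symm (h y)))
  rw [h.symm_apply_apply]

end Pool.Agent.H642.CH
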