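import Pool.Agent.H642.CH.ME
import Pool.Agent.H642.CH.DB
import Pool.Agent.H642.CH.BE
import Pool.Agent.H642.CH.EX
import Pool.Graph.R_seed8.W889.SD.Deg

set_option autoImplicit false

/-! Faithful completeness of conjugacy of homeomorphisms of the Cantor space. -/

namespace Pool.Agent.H642.CH

open Set Filter Topology
open Pool.Agent.W889.VC (BP Faithful BIso BinStr IsGraph Bip target_Bip)
open Pool.Agent.W889.SD (dc measurable_dc dc_iso dc_iso' faithful_interp)

attribute [local instance] homeoMeas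

/-- topological conjugacy -/
def Cj (f g : X ≃ₜ X) : Prop := ∃ h : X ≃ₜ X, ∀ x, h (f x) = g (h x)

theorem Cj.symm {f g : X ≃ₜ X} (h : Cj f g) : Cj g f := by
  obtain ⟨h, hh⟩ := h
  refine ⟨h.symm, fun x => ?_⟩
  rw [h.symm_apply_eq, hh, h.apply_symm_apply]

/-- north-south dynamics with a convergent sequence of fixed points -/
structure Simple (f : X ≃ₜ X) : Prop where
  fwd : ∀ x, ∃ p, f p = p ∧ Tendsto (fun n : ℕ => (⇑f)^[n] x) atTop (𝓝 p)
  bwd : ∀ x, ∃ p, f p = p ∧ Tendsto (fun n : ℕ => (⇑f.symm)^[n] x) atTop (𝓝 p)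
  fix : ∃ p, ∀ U, IsOpen U → p ∈ U → {x | f x = x ∧ x ∉ U}.Finite

theorem it_iter (f : X ≃ₜ X) (n : ℕ) (x : X) : it f n x = (⇑f)^[n] x := by
  induction n generalizing x with
  | zero => simp [it_zero]
  | succ n ih =>
    push_cast
    rw [it_add, it_one, Function.iterate_succ_apply, ih]

theorem it_iter' (f : X ≃ₜ X) (n : ℕ) (x : X) : it f (-n) x = (⇑f.symm)^[n] x := by
  induction n generalizing x with
  | zero => simp [it_zero]
  | succ n ih =>
    have h1 : (-((n + 1 : ℕ) : ℤ)) = -(n : ℤ) + -1 := by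
      push_cast
      ring
    rw [h1, it_add, it_symm, Function.iterate_succ_apply, ih]

section

variable {V E : Type} {R : V → E → Prop} {f : X ≃ₜ X}

theorem fix_of (M : Mk f V E R) {p : Pt V E R} (h : sh 1 p = p) : f (pt M p) = pt M p := by
  rw [← it_one f, it_pt, h]

theorem simple_of_mk (M : Mk f V E R) : Simple f where
  fwd := by
    intro x
    have hfx : ∀ p : Pt V E R, M.Φ x = p → (∀ k, sh k p = p) →
        ∃ p, f p = p ∧ Tendsto (fun n : ℕ => (⇑f)^[n] x) atTop (𝓝 p) := by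
      intro p hp hs
      have hx := eq_pt hp
      refine ⟨x, ?_, ?_⟩
      · rw [hx]
        exact fix_of M (hs 1)
      · refine tendsto_const_nhds.congr fun n => ?_
        rw [← it_iter, hx, it_pt, hs]
    rcases hp : M.Φ x with _ | v | e | ⟨v, n⟩ | ⟨v, e, hr, n, c⟩
    · exact hfx _ hp fun k => rfl
    · exact hfx _ hp fun k => rfl
    · exact hfx _ hp fun k => rfl
    · refine ⟨pt M .inf, fix_of M rfl, ?_⟩
      rw [tendsto_atTop_nhds]
      intro W hW1 hW2
      obtain ⟨s, t, N, h1⟩ := inf_nbhd M hW2 hW1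
      refine ⟨(N - n).natAbs, fun k hk => ?_⟩
      rw [← it_iter, eq_pt hp, it_pt]
      refine h1 _ (fun v' _ h2 => ?_) (fun e _ h2 => ?_)
      · rw [Φ_pt] at h2
        have := h2.2
        omega
      · rw [Φ_pt] at h2
        exact h2
    · refine ⟨pt M (.att e), fix_of M rfl, ?_⟩
      rw [tendsto_atTop_nhds]
      intro W hW1 hW2
      obtain ⟨N, hN⟩ := (attA M e n).shrink hW2 hW1
      refine ⟨N, fun k hk => ?_⟩
      have h1 := hN x (by
        show inE e n (M.Φ x)
        rw [hp]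
        exact ⟨rfl, le_refl _⟩) k (by exact_mod_cast hk)
      rw [it_inv, neg_neg, it_iter] at h1
      exact h1
  bwd := by
    intro x
    have hfx : ∀ p : Pt V E R, M.Φ x = p → (∀ k, sh k p = p) →
        ∃ p, f p = p ∧ Tendsto (fun n : ℕ => (⇑f.symm)^[n] x) atTop (𝓝 p) := by
      intro p hp hs
      have hx := eq_pt hp
      refine ⟨x, ?_, ?_⟩
      · rw [hx]
        exact fix_of M (hs 1)
      · refine tendsto_const_nhds.congr fun n => ?_
        rw [← it_iter', hx, it_pt, hs]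
    have hV : ∀ v n, inV v n (M.Φ x) →
        ∃ p, f p = p ∧ Tendsto (fun n : ℕ => (⇑f.symm)^[n] x) atTop (𝓝 p) := by
      intro v n hv
      refine ⟨pt M (.rep v), fix_of M rfl, ?_⟩
      rw [tendsto_atTop_nhds]
      intro W hW1 hW2
      obtain ⟨N, hN⟩ := (repA M v n).shrink hW2 hW1
      refine ⟨N, fun k hk => ?_⟩
      have h1 := hN x hv k (by exact_mod_cast hk)
      rw [it_iter'] at h1
      exact h1
    rcases hp : M.Φ x with _ | v | e | ⟨v, n⟩ | ⟨v, e, hr, n, c⟩
    · exact hfx _ hp fun k => rfl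
    · exact hfx _ hp fun k => rfl
    · exact hfx _ hp fun k => rfl
    · refine hV v (n + 1) ?_
      rw [hp]
      exact ⟨rfl, by omega⟩
    · refine hV v (n + 1) ?_
      rw [hp]
      exact ⟨rfl, by omega⟩
  fix := by
    classical
    refine ⟨pt M .inf, fun U hU hp => ?_⟩
    obtain ⟨s, t, N, h1⟩ := inf_nbhd M hU hp
    refine ((s.finite_toSet.image fun v => pt M (.rep v)).union
      (t.finite_toSet.image fun e => pt M (.att e))).subset ?_
    rintro x ⟨hx, hxU⟩
    have hx' : it f 1 x = x := by rw [it_one, hx]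
    rcases fixed_pt (M := M) hx' with h2 | ⟨v, h2⟩ | ⟨e, h2⟩
    · exact (hxU (by rw [eq_pt h2]; exact hp)).elim
    · left
      refine ⟨v, ?_, (eq_pt h2).symm⟩
      by_contra hv
      apply hxU
      refine h1 x (fun v' hv' h3 => ?_) (fun e _ h3 => ?_)
      · rw [h2] at h3
        have h4 : v = v' := h3
        exact hv (h4 ▸ hv')
      · rw [h2] at h3
        exact h3
    · right
      refine ⟨e, ?_, (eq_pt h2).symm⟩
      by_contra he
      apply hxU
      refine h1 x (fun v' _ h3 => ?_) (fun e' he' h3 => ?_)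
      · rw [h2] at h3
        exact h3
      · rw [h2] at h3
        have h4 : e = e' := h3
        exact he (h4 ▸ he')

end

/-- the decoding -/
noncomputable def dec (f : X ≃ₜ X) : BinStr := dc (fun f u => PV f u) (fun f u v => Ad f u v) f

theorem meas_dec : Measurable dec := measurable_dc bp_pv bp_ad

theorem good_cj {f g : X ≃ₜ X} (h : Cj f g) (G : Good f) : Good g := by
  obtain ⟨h, hh⟩ := h
  obtain ⟨M⟩ := good_mk G
  exact good_of_mk (M.transport h hh) (good_bp G)

theorem dec_iff {f g : X ≃ₜ X} (Gf : Good f) (Gg : Good g) : Cj f g ↔ BIso (dec f) (dec g) := by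
  unfold dec
  rw [dc_iso Gf.g1 Gg.g1]
  constructor
  · rintro ⟨h, hh⟩
    obtain ⟨M⟩ := good_mk Gf
    obtain ⟨θ, hθ⟩ := graph_of_mk M (good_bp Gf)
    obtain ⟨θ', hθ'⟩ := graph_of_mk (M.transport h hh) (good_bp Gf)
    refine ⟨θ.symm.trans θ', fun u v => ?_⟩
    have h1 := hθ (θ.symm u) (θ.symm v)
    have h2 := hθ' (θ.symm u) (θ.symm v)
    rw [θ.apply_symm_apply, θ.apply_symm_apply] at h1
    show Ad f u v ↔ Ad g (θ' (θ.symm u)) (θ' (θ.symm v))
    rw [h1, h2]
  · rintro ⟨π, hπ⟩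
    obtain ⟨M⟩ := good_mk Gf
    obtain ⟨N⟩ := good_mk Gg
    have hA : ∀ {f : X ≃ₜ X} (u v : Vf f), Ad f u v ↔
        (u ≠ v ∧ ∃ e : Ef f, Rf f u e ∧ Rf f v e) := by
      intro f u v
      unfold Ad
      refine and_congr (not_congr Subtype.ext_iff.symm) ?_
      constructor
      · rintro ⟨w, h1, h2, h3⟩
        exact ⟨⟨w, h1⟩, h2, h3⟩
      · rintro ⟨⟨w, h1⟩, h2, h3⟩
        exact ⟨w, h1, h2, h3⟩
    obtain ⟨ε, hε⟩ := extend (good_bp Gf) (good_bp Gg) π (fun u v => by
      rw [← hA, ← hA]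
      exact hπ u v)
    exact (M.relabel π ε hε).conj N

section graph

variable (x : BinStr)

/-- the attracting points for a graph -/
def EE : Type := {t : ℕ × ℕ × ℕ // t.1 ≤ t.2.1 ∧ (t.1 = t.2.1 ∨ (t.2.2 = 0 ∧ x t.1 t.2.1 = true))}

instance : Countable (EE x) := by
  unfold EE
  infer_instance

/-- the incidence relation -/
def RR (w : ℕ) (e : EE x) : Prop := w = e.1.1 ∨ w = e.1.2.1

theorem bp_graph : Bp ℕ (EE x) (RR x) where
  inf := inferInstance
  two := fun e => ⟨e.1.1, e.1.2.1, fun v h => h⟩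
  ne := fun e => ⟨e.1.1, Or.inl rfl⟩
  uni := by
    rintro v v' ⟨⟨a, b, k⟩, h1, h2⟩ ⟨⟨a', b', k'⟩, h1', h2'⟩ hne h3 h4 h5 h6
    simp only [RR] at h1 h2 h1' h2' h3 h4 h5 h6
    have e1 : a = a' := by omega
    have e2 : b = b' := by omega
    have e3 : k = k' := by omega
    subst e1
    subst e2
    subst e3
    rfl
  pend := by
    intro v
    let g : ℕ → EE x := fun k => ⟨(v, v, k), le_refl _, Or.inl rfl⟩
    have hg : Function.Injective g := by
      intro k k' h
      have h1 := congrArg (fun t : EE x => t.1.2.2) h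
      exact h1
    refine (infinite_range_of_injective hg).mono ?_
    rintro _ ⟨k, rfl⟩
    refine ⟨Or.inl rfl, ?_⟩
    rintro v' (h | h) <;> exact h

theorem adj_graph (hx : IsGraph x) (m n : ℕ) :
    x m n = true ↔ (m ≠ n ∧ ∃ e, RR x m e ∧ RR x n e) := by
  constructor
  · intro h
    have hne : m ≠ n := by
      rintro rfl
      rw [hx.irrefl] at h
      exact Bool.noConfusion h
    refine ⟨hne, ?_⟩
    rcases Nat.lt_or_ge m n with h1 | h1
    · exact ⟨⟨(m, n, 0), h1.le, Or.inr ⟨rfl, h⟩⟩, Or.inl rfl, Or.inr rfl⟩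
    · exact ⟨⟨(n, m, 0), h1, Or.inr ⟨rfl, hx.symm _ _ h⟩⟩, Or.inr rfl, Or.inl rfl⟩
  · rintro ⟨hne, ⟨⟨a, b, k⟩, h1, h2⟩, h3, h4⟩
    simp only [RR] at h1 h2 h3 h4
    rcases h3 with rfl | rfl <;> rcases h4 with rfl | rfl
    · exact (hne rfl).elim
    · rcases h2 with h2 | h2
      · exact (hne h2).elim
      · exact h2.2
    · rcases h2 with h2 | h2
      · exact (hne h2.symm).elim
      · exact hx.symm _ _ h2.2
    · exact (hne rfl).elim

end graph

theorem dec_surj (x : BinStr) (hx : IsGraph x) : ∃ f : X ≃ₜ X, Good f ∧ BIso (dec f) x := by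
  obtain ⟨f, ⟨M⟩⟩ := exists_mk (bp_graph x)
  have G := good_of_mk M (bp_graph x)
  obtain ⟨θ, hθ⟩ := graph_of_mk M (bp_graph x)
  refine ⟨f, G, ?_⟩
  unfold dec
  refine dc_iso' G.g1 θ fun m n => ?_
  rw [hθ]
  exact adj_graph x hx m n

theorem simple_of_good {f : X ≃ₜ X} (G : Good f) : Simple f := by
  obtain ⟨M⟩ := good_mk G
  exact simple_of_mk M

/-- faithful completeness of conjugacy -/
theorem faithful_cj : Faithful Cj Simple :=
  faithful_interp (target_Bip.faithful.mono (K' := IsGraph) fun y hy => hy.1)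
    (fun _ _ h => h.symm) bp_good meas_dec (fun _ _ h G => good_cj h G)
    (fun _ _ Gf Gg => dec_iff Gf Gg) dec_surj (fun _ G => simple_of_good G)

end Pool.Agent.H642.CH
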